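import Pool.Agent.H11.T4.Stmts

open Finset

namespace Pool.T4

theorem man_reduces (h1 : FLPStmt) (h2 : SIMStmt) {n : ℕ} (L : Set (Finset (Fin n)))
    (h : Reduces L) : Nonempty (Cone L ≃ₜ EuclideanSpace ℝ (Fin 4)) := by
  induction h with
  | base S h => exact h2 n S h
  | step L L' A B hf _ ih =>
    obtain ⟨e⟩ := h1 n L L' A B hf
    obtain ⟨e'⟩ := ih
    exact ⟨e.trans e'⟩

theorem man (h1 : FLPStmt) (h2 : SIMStmt) (h3 : STAStmt) : MANStmt := by
  intro n K hK
  have hE : ∀ v : Fin n, Nonempty (openStar K v ≃ₜ EuclideanSpace ℝ (Fin 4)) := by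
    intro v
    obtain ⟨e⟩ := (h3 n K v).2
    obtain ⟨e'⟩ := man_reduces h1 h2 _ (hK v)
    exact ⟨e.trans e'⟩
  let E := fun v : Fin n => Classical.choice (hE v)
  have hO : ∀ v : Fin n, Topology.IsOpenEmbedding
      (fun y : EuclideanSpace ℝ (Fin 4) => (((E v).symm y : openStar K v) : Geom K)) := by
    intro v
    exact ((h3 n K v).1.isOpenEmbedding_subtypeVal).comp (E v).symm.isOpenEmbedding
  have hex : ∀ p : Geom K, ∃ v : Fin n, p.1 v ≠ 0 := by
    intro p
    by_contra hcon
    push Not at hcon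
    have hs := p.2.2.1
    simp [hcon] at hs
  choose V hV using hex
  refine ⟨{
    atlas := Set.range (fun v : Fin n => ((hO v).toOpenPartialHomeomorph _).symm)
    chartAt := fun p => ((hO (V p)).toOpenPartialHomeomorph _).symm
    mem_chart_source := ?_
    chart_mem_atlas := ?_ }⟩
  · intro p
    rw [OpenPartialHomeomorph.symm_source]
    rw [Topology.IsOpenEmbedding.toOpenPartialHomeomorph_target]
    refine ⟨E (V p) ⟨p, hV p⟩, ?_⟩
    simp
  · intro p
    exact ⟨V p, rfl⟩

end Pool.T4
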