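import Pool.Agent.H11.T4.Stmts

open Finset

namespace Pool.T4

/-- minimum of five numbers -/
noncomputable def sim_mn (z : Fin 5 → ℝ) : ℝ := (univ : Finset (Fin 5)).inf' ⟨0, mem_univ 0⟩ z

theorem sim_mn_le (z : Fin 5 → ℝ) (k : Fin 5) : sim_mn z ≤ z k := Finset.inf'_le _ (mem_univ k)

theorem sim_mn_ex (z : Fin 5 → ℝ) : ∃ k, sim_mn z = z k := by
  obtain ⟨k, -, hk⟩ := Finset.exists_mem_eq_inf' (s := (univ : Finset (Fin 5))) ⟨0, mem_univ 0⟩ z
  exact ⟨k, hk⟩

theorem sim_mn_eq (z : Fin 5 → ℝ) (c : ℝ) (h1 : ∀ k, c ≤ z k) (h2 : ∃ k, z k = c) :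
    sim_mn z = c := by
  apply le_antisymm
  · obtain ⟨k, hk⟩ := h2
    rw [← hk]; exact sim_mn_le z k
  · exact Finset.le_inf' _ _ (fun k _ => h1 k)

theorem sim_mn_cont : Continuous sim_mn := by
  unfold sim_mn
  exact Continuous.finset_inf'_apply _ (fun k _ => continuous_apply k)

/-- prepend zero -/
def sim_z (y : Fin 4 → ℝ) : Fin 5 → ℝ := Fin.cons 0 y

theorem sim_z_cont : Continuous sim_z := by
  unfold sim_z
  refine continuous_pi ?_
  intro k
  refine Fin.cases ?_ ?_ k
  · simp only [Fin.cons_zero]; exact continuous_const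
  · intro i; simp only [Fin.cons_succ]; exact continuous_apply i

section

variable {n : ℕ} (S : Finset (Fin n)) (s : Fin 5 ≃ S)

theorem sim_mem (p : Fin n → ℝ) (h0 : ∀ i, 0 ≤ p i) (hs : ∀ i, i ∉ S → p i = 0)
    (he : ∃ k, p (s k) = 0) : p ∈ Cone {s : Finset (Fin n) | s ⊂ S} := by
  refine ⟨h0, ?_⟩
  rw [Set.mem_setOf_eq, Finset.ssubset_iff_of_subset]
  · obtain ⟨k, hk⟩ := he
    refine ⟨(s k : Fin n), (s k).2, ?_⟩
    simp [hk]
  · intro i hi
    by_contra hcon
    have := hs i hcon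
    simp [this] at hi

theorem sim_ex (p : Cone {s : Finset (Fin n) | s ⊂ S}) : ∃ k, p.1 (s k) = 0 := by
  have h := p.2.2
  rw [Set.mem_setOf_eq] at h
  obtain ⟨i, hi, hni⟩ := Finset.exists_of_ssubset h
  refine ⟨s.symm ⟨i, hi⟩, ?_⟩
  simp only [mem_filter, mem_univ, true_and, not_not] at hni
  simp [hni]

theorem sim_out (p : Cone {s : Finset (Fin n) | s ⊂ S}) (i : Fin n) (hi : i ∉ S) :
    p.1 i = 0 := by
  have h := p.2.2
  rw [Set.mem_setOf_eq] at h
  by_contra hcon
  exact hi (h.1 (by simp [hcon]))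

/-- the map to `ℝ⁴` -/
def sim_to (p : Cone {s : Finset (Fin n) | s ⊂ S}) : Fin 4 → ℝ :=
  fun i => p.1 (s i.succ) - p.1 (s 0)

open Classical in
/-- the inverse -/
noncomputable def sim_fn (y : Fin 4 → ℝ) : Fin n → ℝ :=
  fun j => if h : j ∈ S then sim_z y (s.symm ⟨j, h⟩) - sim_mn (sim_z y) else 0

theorem sim_fn_s (y : Fin 4 → ℝ) (k : Fin 5) :
    sim_fn S s y (s k) = sim_z y k - sim_mn (sim_z y) := by
  unfold sim_fn
  rw [dif_pos (s k).2]
  simp

noncomputable def sim_inv (y : Fin 4 → ℝ) : Cone {s : Finset (Fin n) | s ⊂ S} :=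
  ⟨sim_fn S s y, by
    apply sim_mem S s
    · intro i
      unfold sim_fn
      split_ifs with h
      · have := sim_mn_le (sim_z y) (s.symm ⟨i, h⟩)
        linarith
      · exact le_rfl
    · intro i hi
      unfold sim_fn
      rw [dif_neg hi]
    · obtain ⟨k, hk⟩ := sim_mn_ex (sim_z y)
      refine ⟨k, ?_⟩
      rw [sim_fn_s, hk, sub_self]⟩

theorem sim_left (p : Cone {s : Finset (Fin n) | s ⊂ S}) : sim_inv S s (sim_to S s p) = p := by
  have hz : ∀ k, sim_z (sim_to S s p) k = p.1 (s k) - p.1 (s 0) := by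
    intro k
    unfold sim_z
    refine Fin.cases ?_ ?_ k
    · simp
    · intro i; simp [sim_to]
  have hm : sim_mn (sim_z (sim_to S s p)) = - p.1 (s 0) := by
    apply sim_mn_eq
    · intro k
      rw [hz]
      have := p.2.1 (s k)
      linarith
    · obtain ⟨k, hk⟩ := sim_ex S s p
      refine ⟨k, ?_⟩
      rw [hz, hk]; ring
  apply Subtype.ext
  funext j
  change sim_fn S s (sim_to S s p) j = p.1 j
  by_cases hj : j ∈ S
  · have hj' : j = (s (s.symm ⟨j, hj⟩) : Fin n) := by simp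
    rw [hj', sim_fn_s, hz, hm]
    ring
  · rw [sim_out S p j hj]
    unfold sim_fn
    rw [dif_neg hj]

theorem sim_right (y : Fin 4 → ℝ) : sim_to S s (sim_inv S s y) = y := by
  funext i
  change sim_fn S s y (s i.succ) - sim_fn S s y (s 0) = y i
  rw [sim_fn_s, sim_fn_s]
  unfold sim_z
  simp

theorem sim_to_cont : Continuous (sim_to S s) := by
  unfold sim_to
  refine continuous_pi ?_
  intro i
  exact ((continuous_apply _).comp continuous_subtype_val).sub
    ((continuous_apply _).comp continuous_subtype_val)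

theorem sim_inv_cont : Continuous (sim_inv S s) := by
  refine Continuous.subtype_mk (f := sim_fn S s) ?_ _
  refine continuous_pi ?_
  intro j
  unfold sim_fn
  by_cases hj : j ∈ S
  · simp only [hj, dif_pos]
    exact ((continuous_apply _).comp sim_z_cont).sub (sim_mn_cont.comp sim_z_cont)
  · simp only [hj, dif_neg, not_false_eq_true]
    exact continuous_const

end

theorem sim : SIMStmt := by
  intro n S hS
  let s : Fin 5 ≃ S := (S.equivFinOfCardEq hS).symm
  let e : Cone {s : Finset (Fin n) | s ⊂ S} ≃ₜ (Fin 4 → ℝ) :=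
    { toFun := sim_to S s
      invFun := sim_inv S s
      left_inv := sim_left S s
      right_inv := sim_right S s
      continuous_toFun := sim_to_cont S s
      continuous_invFun := sim_inv_cont S s }
  exact ⟨e.trans (EuclideanSpace.equiv (Fin 4) ℝ).symm.toHomeomorph⟩

end Pool.T4
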