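import Pool.Agent.H11.T4.Stmts

open Finset

namespace Pool.T4

abbrev win_A : Type := AddCircle (1 : ℝ)

theorem win_cov : IsCoveringMap ((↑) : ℝ → win_A) := AddCircle.isCoveringMap_coe (1 : ℝ)

/-- the lift of a loop starting at `e` -/
noncomputable def win_lift (γ : Path (0 : win_A) 0) (e : ℝ) (he : ((e : ℝ) : win_A) = 0) :
    C(unitInterval, ℝ) :=
  win_cov.liftPath γ.toContinuousMap e (by
    change γ 0 = _
    rw [γ.source, he])

theorem win_lift_coe (γ : Path (0 : win_A) 0) (e : ℝ) (he : ((e : ℝ) : win_A) = 0)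
    (t : unitInterval) : ((win_lift γ e he t : ℝ) : win_A) = γ t := by
  have h := win_cov.liftPath_lifts γ.toContinuousMap e (by
    change γ 0 = _
    rw [γ.source, he])
  exact congrFun h t

theorem win_lift_zero (γ : Path (0 : win_A) 0) (e : ℝ) (he : ((e : ℝ) : win_A) = 0) :
    win_lift γ e he 0 = e := win_cov.liftPath_zero _ _ _

theorem win_lift_unique (γ : Path (0 : win_A) 0) (e : ℝ) (he : ((e : ℝ) : win_A) = 0)
    (Γ : unitInterval → ℝ) (hc : Continuous Γ) (hl : ∀ t, ((Γ t : ℝ) : win_A) = γ t)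
    (h0 : Γ 0 = e) : ∀ t, Γ t = win_lift γ e he t := by
  have h := (win_cov.eq_liftPath_iff (γ := γ.toContinuousMap) (e := e) (by
    change γ 0 = _
    rw [γ.source, he]) (Γ := Γ)).2 ⟨hc, funext hl, h0⟩
  intro t
  exact congrFun h t

theorem win_zero : (((0 : ℝ) : ℝ) : win_A) = 0 := by simp

theorem win_int (r : ℝ) (h : ((r : ℝ) : win_A) = 0) : ∃ k : ℤ, (k : ℝ) = r := by
  rw [AddCircle.coe_eq_zero_iff] at h
  obtain ⟨k, hk⟩ := h
  refine ⟨k, ?_⟩
  rw [← hk]; simp

/-- the end point of the lift starting at `0` -/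
noncomputable def win_end (γ : Path (0 : win_A) 0) : ℝ := win_lift γ 0 win_zero 1

theorem win_end_int (γ : Path (0 : win_A) 0) : ((win_end γ : ℝ) : win_A) = 0 := by
  unfold win_end
  rw [win_lift_coe, γ.target]

theorem win_end_floor (γ : Path (0 : win_A) 0) : ((⌊win_end γ⌋ : ℤ) : ℝ) = win_end γ := by
  obtain ⟨k, hk⟩ := win_int _ (win_end_int γ)
  rw [← hk]; simp

theorem win_shift (γ : Path (0 : win_A) 0) (e : ℝ) (he : ((e : ℝ) : win_A) = 0)
    (t : unitInterval) : win_lift γ e he t = win_lift γ 0 win_zero t + e := by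
  symm
  apply win_lift_unique γ e he (fun t => win_lift γ 0 win_zero t + e)
  · exact (win_lift γ 0 win_zero).continuous.add continuous_const
  · intro t
    rw [AddCircle.coe_add, he, add_zero, win_lift_coe]
  · rw [win_lift_zero, zero_add]

theorem win_trans (γ γ' : Path (0 : win_A) 0) :
    win_end (γ.trans γ') = win_end γ + win_end γ' := by
  have he := win_end_int γ
  have key : ∀ t, (fun t : unitInterval => if h : (t : ℝ) ≤ 1 / 2 then
      win_lift γ 0 win_zero ⟨2 * t, (unitInterval.mul_pos_mem_iff zero_lt_two).2 ⟨t.2.1, h⟩⟩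
      else win_lift γ' (win_end γ) he
        ⟨2 * t - 1, unitInterval.two_mul_sub_one_mem_iff.2 ⟨(not_le.1 h).le, t.2.2⟩⟩) t =
      win_lift (γ.trans γ') 0 win_zero t := by
    apply win_lift_unique
    · let Γ : Path (0 : ℝ) (win_end γ) := ⟨win_lift γ 0 win_zero, win_lift_zero _ _ _, rfl⟩
      let Γ' : Path (win_end γ) (win_lift γ' (win_end γ) he 1) :=
        ⟨win_lift γ' (win_end γ) he, win_lift_zero _ _ _, rfl⟩
      have hc := (Γ.trans Γ').continuous
      refine hc.congr ?_
      intro t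
      rw [Path.trans_apply]
      rfl
    · intro t
      rw [Path.trans_apply]
      split_ifs with h
      · rw [win_lift_coe]
      · rw [win_lift_coe]
    · rw [dif_pos (by simp)]
      have h0 : (⟨2 * ((0 : unitInterval) : ℝ), by simp⟩ : unitInterval) = 0 := by
        ext; simp
      rw [h0, win_lift_zero]
  have h1 := key 1
  unfold win_end at h1 ⊢
  rw [← h1]
  simp only
  rw [dif_neg (by norm_num)]
  have h2 : (⟨2 * ((1 : unitInterval) : ℝ) - 1, by simp; norm_num⟩ : unitInterval) = 1 := by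
    ext; simp; norm_num
  rw [h2, win_shift]
  ring

theorem win_homotopic (γ γ' : Path (0 : win_A) 0) (h : win_end γ = win_end γ') :
    γ.Homotopic γ' := by
  have hcomp : ∀ δ : Path (0 : win_A) 0,
      (⟨((↑) : ℝ → win_A), win_cov.continuous⟩ : C(ℝ, win_A)).comp (win_lift δ 0 win_zero) =
        δ.toContinuousMap := by
    intro δ
    ext t
    exact win_lift_coe δ 0 win_zero t
  let Γ : Path (0 : ℝ) (win_end γ) := ⟨win_lift γ 0 win_zero, win_lift_zero _ _ _, rfl⟩
  let Γ' : Path (0 : ℝ) (win_end γ) := ⟨win_lift γ' 0 win_zero, win_lift_zero _ _ _, h.symm⟩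
  have hh : Γ.Homotopic Γ' := SimplyConnectedSpace.paths_homotopic Γ Γ'
  have h2 : (win_lift γ 0 win_zero).HomotopicRel (win_lift γ' 0 win_zero) {0, 1} := hh
  have h3 := (win_cov.homotopicRel_iff_comp (f₀ := win_lift γ 0 win_zero)
    (f₁ := win_lift γ' 0 win_zero) (S := {0, 1}) ⟨0, .inl rfl, by
      rw [win_lift_zero, win_lift_zero]⟩).1 h2
  rw [hcomp, hcomp] at h3
  exact h3

theorem win_end_eq (γ γ' : Path (0 : win_A) 0) (h : γ.Homotopic γ') :
    win_end γ = win_end γ' :=
  win_cov.liftPath_apply_one_eq_of_homotopicRel h _ _ _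

theorem win : WINStmt := by
  refine ⟨fun q => Quotient.lift (fun γ => ⌊win_end γ⌋) (fun γ γ' h => ?_) q, ?_, ?_, ?_⟩
  · rw [win_end_eq γ γ' h]
  · intro p q
    induction p using Path.Homotopic.Quotient.ind with
    | mk γ =>
    induction q using Path.Homotopic.Quotient.ind with
    | mk γ' =>
    rw [← Path.Homotopic.Quotient.mk_trans]
    change ⌊win_end (γ.trans γ')⌋ = ⌊win_end γ⌋ + ⌊win_end γ'⌋
    have h := win_trans γ γ'
    rw [← win_end_floor γ, ← win_end_floor γ'] at h
    rw [h, ← Int.cast_add]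
    exact Int.floor_intCast _
  · intro p q h
    induction p using Path.Homotopic.Quotient.ind with
    | mk γ =>
    induction q using Path.Homotopic.Quotient.ind with
    | mk γ' =>
    change ⌊win_end γ⌋ = ⌊win_end γ'⌋ at h
    rw [Path.Homotopic.Quotient.eq]
    apply win_homotopic
    rw [← win_end_floor γ, ← win_end_floor γ', h]
  · intro m γ hγ
    change ⌊win_end γ⌋ = m
    have h := win_lift_unique γ 0 win_zero (fun t => t.1 * m) (by fun_prop)
      (fun t => (hγ t).symm) (by simp) 1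
    unfold win_end
    rw [← h]
    simp

end Pool.T4
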